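import Mathlib

/-! COUNT module of MP_7f94de_pr (helper94): existence of a good set by double counting. -/

namespace Pool.Agent.Helper94.ES

open Finset

section Count

variable {ι : Type*} [DecidableEq ι]

open Classical in
/-- pairs `(A, a)` with `f a ∉ A` -/
lemma count_notMem (P : Finset ι) (n : ℕ) (𝒯 : Finset (Finset ι))
    (h𝒯 : 𝒯 ⊆ P.powersetCard n) (S : Finset ι) (f : ι → ι) (hf : ∀ a ∈ S, f a ∈ P) :
    ∑ A ∈ 𝒯, (S.filter (fun a => f a ∉ A)).card ≤ S.card * (P.card - 1).choose n := by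
  calc ∑ A ∈ 𝒯, (S.filter (fun a => f a ∉ A)).card
      = ∑ a ∈ S, (𝒯.filter (fun A => f a ∉ A)).card := by
        simp only [card_filter]
        exact sum_comm
    _ ≤ ∑ a ∈ S, (P.card - 1).choose n := by
        refine sum_le_sum fun a ha => ?_
        rw [← card_erase_of_mem (hf a ha), ← card_powersetCard]
        refine card_le_card fun A hA => ?_
        rw [mem_filter] at hA
        have h1 := mem_powersetCard.1 (h𝒯 hA.1)
        exact mem_powersetCard.2 ⟨subset_erase.2 ⟨h1.1, hA.2⟩, h1.2⟩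
    _ = S.card * (P.card - 1).choose n := by rw [sum_const, smul_eq_mul]

omit [DecidableEq ι] in
/-- pairs counted by an injection -/
lemma count_inj {κ : Type*} (𝒯 : Finset (Finset ι)) (S : Finset ι) (R : Finset ι → ι → Prop)
    [∀ A, DecidablePred (R A)] (W : Finset κ) (w : Finset ι → ι → κ) (hw : ∀ A ∈ 𝒯, ∀ a ∈ S, R A a → w A a ∈ W)
    (hinj : ∀ A ∈ 𝒯, ∀ a ∈ S, R A a → ∀ A' ∈ 𝒯, ∀ a' ∈ S, R A' a' → w A a = w A' a' →
      A = A' ∧ a = a') :
    ∑ A ∈ 𝒯, (S.filter (fun a => R A a)).card ≤ W.card := by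
  have h1 : ∑ A ∈ 𝒯, (S.filter (fun a => R A a)).card =
      ((𝒯 ×ˢ S).filter (fun z => R z.1 z.2)).card := by
    simp only [card_filter]
    rw [sum_product]
  rw [h1]
  refine card_le_card_of_injOn (fun z => w z.1 z.2) ?_ ?_
  · rintro ⟨A, a⟩ hz
    simp only [coe_filter, mem_product, Set.mem_ofPred_eq] at hz
    exact hw A hz.1.1 a hz.1.2 hz.2
  · rintro ⟨A, a⟩ hz ⟨A', a'⟩ hz' h
    simp only [coe_filter, mem_product, Set.mem_ofPred_eq] at hz hz'
    have := hinj A hz.1.1 a hz.1.2 hz.2 A' hz'.1.1 a' hz'.1.2 hz'.2 h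
    rw [this.1, this.2]

lemma choose_pred_le {p n : ℕ} (hn : 2 ≤ n) (hnp : n ≤ p) {δ : ℝ}
    (hδ : (p : ℝ) - n ≤ δ * p) : ((p - 1).choose n : ℝ) ≤ δ * (p.choose n : ℝ) := by
  have hp : 0 < p := by omega
  have h1 : (p - 1 + 1) * (p - 1).choose n = (p - 1 + 1).choose n * (p - 1 + 1 - n) := by
    rw [mul_comm]
    exact Nat.choose_mul_succ_eq (p - 1) n
  rw [Nat.sub_add_cancel hp] at h1
  have h2 : (p : ℝ) * ((p - 1).choose n : ℝ) = (p.choose n : ℝ) * ((p : ℝ) - n) := by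
    have := congrArg (Nat.cast (R := ℝ)) h1
    push_cast [Nat.cast_sub hnp] at this
    exact this
  have hp' : (0 : ℝ) < p := by exact_mod_cast hp
  have h3 : (p : ℝ) * ((p - 1).choose n : ℝ) ≤ p * (δ * (p.choose n : ℝ)) := by
    rw [h2]
    nlinarith [mul_le_mul_of_nonneg_left hδ (Nat.cast_nonneg (α := ℝ) (p.choose n))]
  exact le_of_mul_le_mul_left h3 hp'

lemma choose_sub_one_le {p n : ℕ} (hn : 1 ≤ n) (hnp : n ≤ p) {q : ℝ}
    (hq : (n : ℝ) ≤ q * (p - n + 1)) :
    (p.choose (n - 1) : ℝ) ≤ q * (p.choose n : ℝ) := by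
  obtain ⟨k, rfl⟩ : ∃ k, n = k + 1 := ⟨n - 1, by omega⟩
  rw [Nat.add_sub_cancel]
  have h1 : p.choose (k + 1) * (k + 1) = p.choose k * (p - k) := Nat.choose_succ_right_eq p k
  have h2 : (p.choose (k + 1) : ℝ) * (k + 1) = (p.choose k : ℝ) * ((p : ℝ) - k) := by
    have := congrArg (Nat.cast (R := ℝ)) h1
    push_cast [Nat.cast_sub (show k ≤ p by omega)] at this
    exact this
  have hpos : (0 : ℝ) < (p : ℝ) - k := by
    have : ((k + 1 : ℕ) : ℝ) ≤ p := by exact_mod_cast hnp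
    push_cast at this
    linarith
  have h3 : ((k : ℝ) + 1) ≤ q * ((p : ℝ) - k) := by
    push_cast at hq
    have : (p : ℝ) - (k + 1) + 1 = p - k := by ring
    rw [this] at hq
    exact hq
  have h4 : (p.choose k : ℝ) * ((p : ℝ) - k) ≤ (q * (p.choose (k + 1) : ℝ)) * ((p : ℝ) - k) := by
    rw [← h2]
    nlinarith [mul_le_mul_of_nonneg_left h3 (Nat.cast_nonneg (α := ℝ) (p.choose (k + 1)))]
  exact le_of_mul_le_mul_right h4 hpos

open Classical in
/-- COUNT: existence of one good `A` in the family `𝒯` by double counting and averaging. -/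
theorem exists_good_set (P : Finset ι) (n : ℕ) (hn : 2 ≤ n) (hnP : n ≤ P.card)
    (𝒯 : Finset (Finset ι)) (h𝒯 : 𝒯 ⊆ P.powersetCard n) (c δ q η : ℝ) (hc : 0 < c) (hη : 0 < η)
    (h𝒯c : c * (P.card.choose n : ℝ) ≤ 𝒯.card)
    (hδ : (P.card : ℝ) - n ≤ δ * P.card) (hq : (n : ℝ) ≤ q * (P.card - n + 1))
    (N1 N2 top : Finset ι) (hN1 : N1 ⊆ P) (hN2 : N2 ⊆ P) (htop : top ⊆ P)
    (hN1n : N1.Nonempty) (hN2n : N2.Nonempty) (htopn : top.Nonempty)
    (hη' : 4 * δ + q / N1.card + (q + q ^ 2) / N2.card ≤ η * c)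
    (part : ι → Prop) (π : ι → ι) (hπ : ∀ a ∈ N2, part a → π a ∈ P ∧ π a ≠ a)
    (Bad1 Bad2 : Finset ι → Prop)
    (h1 : ∀ w : Finset ι, Bad1 w → ∀ a ∈ P, ∀ a' ∈ P, (a ∈ N1 ∧ a' ∈ N1 ∨ a ∈ N2 ∧ a' ∈ N2) →
      a ∉ w → a' ∉ w → insert a w ∈ 𝒯 → insert a' w ∈ 𝒯 → a = a')
    (h2 : ∀ w : Finset ι, Bad2 w → ∀ a ∈ N2, ∀ a' ∈ N2, part a → part a' →
      a ∉ w → π a ∉ w → a' ∉ w → π a' ∉ w →
      insert a (insert (π a) w) ∈ 𝒯 → insert a' (insert (π a') w) ∈ 𝒯 →
      ¬ Bad1 (insert (π a) w) → ¬ Bad1 (insert (π a') w) → a = a') :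
    ∃ A ∈ 𝒯,
      ((N1.filter (fun a => ¬ (a ∈ A ∧ ¬ Bad1 (A.erase a)))).card : ℝ) ≤ η * N1.card ∧
      ((N2.filter (fun a => ¬ (a ∈ A ∧ ¬ Bad1 (A.erase a) ∧
        (part a → π a ∈ A ∧ ¬ Bad2 ((A.erase a).erase (π a)))))).card : ℝ) ≤ η * N2.card ∧
      ((top \ A).card : ℝ) ≤ η * top.card := by
  set p := P.card with hp
  set Cn : ℝ := (p.choose n : ℝ) with hCn
  have hCn0 : 0 < Cn := by
    rw [hCn]; exact_mod_cast Nat.choose_pos hnP
  have hn1 : (0 : ℝ) < N1.card := by exact_mod_cast hN1n.card_pos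
  have hn2 : (0 : ℝ) < N2.card := by exact_mod_cast hN2n.card_pos
  have hn3 : (0 : ℝ) < top.card := by exact_mod_cast htopn.card_pos
  have hq0 : 0 < q := by
    have h3 : (0 : ℝ) < (p : ℝ) - n + 1 := by
      have : (n : ℝ) ≤ p := by exact_mod_cast hnP
      linarith
    have h4 : (0 : ℝ) < n := by exact_mod_cast (show 0 < n by omega)
    by_contra h5
    push Not at h5
    nlinarith
  have hδC : ((p - 1).choose n : ℝ) ≤ δ * Cn := choose_pred_le hn hnP hδ
  have hqC : (p.choose (n - 1) : ℝ) ≤ q * Cn := choose_sub_one_le (by omega) hnP hq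
  have hqqC : (p.choose (n - 2) : ℝ) ≤ q ^ 2 * Cn := by
    have h3 : (p.choose (n - 1 - 1) : ℝ) ≤ q * (p.choose (n - 1) : ℝ) := by
      refine choose_sub_one_le (by omega) (by omega) ?_
      rw [Nat.cast_sub (show 1 ≤ n by omega), Nat.cast_one]
      have : q * ((p : ℝ) - (n - 1) + 1) = q * ((p : ℝ) - n + 1) + q := by ring
      rw [this]
      linarith
    have h4 : n - 1 - 1 = n - 2 := by omega
    rw [h4] at h3
    nlinarith
  -- first level
  have hlev : ∀ N : Finset ι, N ⊆ P → (N = N1 ∨ N = N2) →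
      ((∑ A ∈ 𝒯, (N.filter (fun a => a ∈ A ∧ Bad1 (A.erase a))).card : ℕ) : ℝ) ≤ q * Cn := by
    intro N hN hN'
    refine le_trans ?_ hqC
    have h3 : ∑ A ∈ 𝒯, (N.filter (fun a => a ∈ A ∧ Bad1 (A.erase a))).card ≤
        (P.powersetCard (n - 1)).card := by
      refine count_inj (κ := Finset ι) 𝒯 N (fun A a => a ∈ A ∧ Bad1 (A.erase a))
        (P.powersetCard (n - 1)) (fun A a => A.erase a) ?_ ?_
      · rintro A hA a _ ⟨ha, _⟩
        have h4 := mem_powersetCard.1 (h𝒯 hA)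
        refine mem_powersetCard.2 ⟨(erase_subset _ _).trans h4.1, ?_⟩
        rw [card_erase_of_mem ha, h4.2]
      · rintro A hA a haN ⟨ha, hb⟩ A' hA' a' haN' ⟨ha', hb'⟩ hw
        have h4 : a = a' := by
          refine h1 (A.erase a) hb a (hN haN) a' (hN haN') ?_ (notMem_erase _ _) ?_ ?_ ?_
          · rcases hN' with rfl | rfl
            · exact Or.inl ⟨haN, haN'⟩
            · exact Or.inr ⟨haN, haN'⟩
          · rw [hw]; exact notMem_erase _ _
          · rwa [insert_erase ha]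
          · rw [hw, insert_erase ha']; exact hA'
        refine ⟨?_, h4⟩
        rw [← insert_erase ha, ← insert_erase ha', hw, h4]
    rw [card_powersetCard] at h3
    exact_mod_cast h3
  -- second level
  have hlev2 : ((∑ A ∈ 𝒯, (N2.filter (fun a => a ∈ A ∧ ¬ Bad1 (A.erase a) ∧ part a ∧ π a ∈ A ∧
      Bad2 ((A.erase a).erase (π a)))).card : ℕ) : ℝ) ≤ q ^ 2 * Cn := by
    refine le_trans ?_ hqqC
    have h3 : ∑ A ∈ 𝒯, (N2.filter (fun a => a ∈ A ∧ ¬ Bad1 (A.erase a) ∧ part a ∧ π a ∈ A ∧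
        Bad2 ((A.erase a).erase (π a)))).card ≤ (P.powersetCard (n - 2)).card := by
      refine count_inj (κ := Finset ι) 𝒯 N2 (fun A a => a ∈ A ∧ ¬ Bad1 (A.erase a) ∧ part a ∧
        π a ∈ A ∧ Bad2 ((A.erase a).erase (π a))) (P.powersetCard (n - 2))
        (fun A a => (A.erase a).erase (π a)) ?_ ?_
      · rintro A hA a haN ⟨ha, _, hpa, hπa, _⟩
        have h4 := mem_powersetCard.1 (h𝒯 hA)
        have h5 : π a ∈ A.erase a := mem_erase.2 ⟨(hπ a haN hpa).2, hπa⟩
        refine mem_powersetCard.2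
          ⟨(erase_subset _ _).trans ((erase_subset _ _).trans h4.1), ?_⟩
        rw [card_erase_of_mem h5, card_erase_of_mem ha, h4.2]
        omega
      · rintro A hA a haN ⟨ha, hb1, hpa, hπa, hb2⟩ A' hA' a' haN' ⟨ha', hb1', hpa', hπa', hb2'⟩ hw
        have h5 : π a ∈ A.erase a := mem_erase.2 ⟨(hπ a haN hpa).2, hπa⟩
        have h5' : π a' ∈ A'.erase a' := mem_erase.2 ⟨(hπ a' haN' hpa').2, hπa'⟩
        have e1 : insert (π a) ((A.erase a).erase (π a)) = A.erase a := insert_erase h5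
        have e2 : insert a (A.erase a) = A := insert_erase ha
        have e1' : insert (π a') ((A.erase a).erase (π a)) = A'.erase a' := by
          have : (A.erase a).erase (π a) = (A'.erase a').erase (π a') := hw
          rw [this]; exact insert_erase h5'
        have e2' : insert a' (A'.erase a') = A' := insert_erase ha'
        have h6 : a ∉ (A.erase a).erase (π a) := fun h => notMem_erase a A (mem_of_mem_erase h)
        have h6' : a' ∉ (A.erase a).erase (π a) := by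
          have : (A.erase a).erase (π a) = (A'.erase a').erase (π a') := hw
          rw [this]; exact fun h => notMem_erase a' A' (mem_of_mem_erase h)
        have h7' : π a' ∉ (A.erase a).erase (π a) := by
          have : (A.erase a).erase (π a) = (A'.erase a').erase (π a') := hw
          rw [this]; exact notMem_erase _ _
        have h4 : a = a' := by
          refine h2 _ hb2 a haN a' haN' hpa hpa' h6 (notMem_erase _ _) h6' h7' ?_ ?_ ?_ ?_
          · rwa [e1, e2]
          · rwa [e1', e2']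
          · rwa [e1]
          · rwa [e1']
        refine ⟨?_, h4⟩
        subst h4
        have h8 : A.erase a = A'.erase a := e1.symm.trans e1'
        exact e2.symm.trans ((congrArg (insert a) h8).trans e2')
    rw [card_powersetCard] at h3
    exact_mod_cast h3
  -- missing elements
  have hmiss : ∀ (S : Finset ι) (f : ι → ι), (∀ a ∈ S, f a ∈ P) →
      ((∑ A ∈ 𝒯, (S.filter (fun a => f a ∉ A)).card : ℕ) : ℝ) ≤ S.card * (δ * Cn) := by
    intro S f hf
    have h3 := count_notMem P n 𝒯 h𝒯 S f hf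
    calc ((∑ A ∈ 𝒯, (S.filter (fun a => f a ∉ A)).card : ℕ) : ℝ)
        ≤ ((S.card * (P.card - 1).choose n : ℕ) : ℝ) := by exact_mod_cast h3
      _ = S.card * ((p - 1).choose n : ℝ) := by push_cast; rfl
      _ ≤ S.card * (δ * Cn) := mul_le_mul_of_nonneg_left hδC (Nat.cast_nonneg _)
  -- the three quantities
  set X1 : Finset ι → ℝ := fun A =>
    ((N1.filter (fun a => ¬ (a ∈ A ∧ ¬ Bad1 (A.erase a)))).card : ℝ) with hX1
  set X2 : Finset ι → ℝ := fun A => ((N2.filter (fun a => ¬ (a ∈ A ∧ ¬ Bad1 (A.erase a) ∧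
        (part a → π a ∈ A ∧ ¬ Bad2 ((A.erase a).erase (π a)))))).card : ℝ) with hX2
  set X3 : Finset ι → ℝ := fun A => ((top \ A).card : ℝ) with hX3
  have hS1 : ∑ A ∈ 𝒯, X1 A ≤ N1.card * (δ * Cn) + q * Cn := by
    refine le_trans ?_ (add_le_add (hmiss N1 id fun a ha => hN1 ha) (hlev N1 hN1 (Or.inl rfl)))
    push_cast
    rw [← sum_add_distrib]
    refine sum_le_sum fun A _ => ?_
    have h3 : N1.filter (fun a => ¬ (a ∈ A ∧ ¬ Bad1 (A.erase a))) ⊆
        N1.filter (fun a => id a ∉ A) ∪ N1.filter (fun a => a ∈ A ∧ Bad1 (A.erase a)) := by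
      intro a
      simp only [mem_filter, mem_union, id]
      tauto
    have h4 := (card_le_card h3).trans (card_union_le _ _)
    rw [hX1]
    simp only
    exact_mod_cast h4
  have hS2 : ∑ A ∈ 𝒯, X2 A ≤ N2.card * (δ * Cn) + N2.card * (δ * Cn) + q * Cn + q ^ 2 * Cn := by
    have hpart : ((∑ A ∈ 𝒯, ((N2.filter part).filter (fun a => π a ∉ A)).card : ℕ) : ℝ) ≤
        N2.card * (δ * Cn) := by
      refine (hmiss (N2.filter part) π ?_).trans ?_
      · intro a ha
        rw [mem_filter] at ha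
        exact (hπ a ha.1 ha.2).1
      · have h3 : ((N2.filter part).card : ℝ) ≤ N2.card := by
          exact_mod_cast card_filter_le _ _
        have h4 : 0 ≤ δ * Cn := le_trans (Nat.cast_nonneg _) hδC
        exact mul_le_mul_of_nonneg_right h3 h4
    refine le_trans ?_ (add_le_add (add_le_add (add_le_add (hmiss N2 id fun a ha => hN2 ha)
      hpart) (hlev N2 hN2 (Or.inr rfl))) hlev2)
    push_cast
    rw [← sum_add_distrib, ← sum_add_distrib, ← sum_add_distrib]
    refine sum_le_sum fun A _ => ?_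
    have h3 : N2.filter (fun a => ¬ (a ∈ A ∧ ¬ Bad1 (A.erase a) ∧
        (part a → π a ∈ A ∧ ¬ Bad2 ((A.erase a).erase (π a))))) ⊆
        N2.filter (fun a => id a ∉ A) ∪ (N2.filter part).filter (fun a => π a ∉ A) ∪
          N2.filter (fun a => a ∈ A ∧ Bad1 (A.erase a)) ∪
          N2.filter (fun a => a ∈ A ∧ ¬ Bad1 (A.erase a) ∧ part a ∧ π a ∈ A ∧
            Bad2 ((A.erase a).erase (π a))) := by
      intro a
      simp only [mem_filter, mem_union, id]
      tauto
    have h4 := (card_le_card h3).trans ((card_union_le _ _).trans (Nat.add_le_add_right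
      ((card_union_le _ _).trans (Nat.add_le_add_right (card_union_le _ _) _)) _))
    rw [hX2]
    simp only
    exact_mod_cast h4
  have hS3 : ∑ A ∈ 𝒯, X3 A ≤ top.card * (δ * Cn) := by
    refine le_trans ?_ (hmiss top id fun a ha => htop ha)
    push_cast
    refine sum_le_sum fun A _ => ?_
    have h3 : top \ A = top.filter (fun a => id a ∉ A) := by
      ext a; simp [mem_sdiff]
    rw [hX3]
    simp only
    rw [h3]
  have hne : 𝒯.Nonempty := by
    rw [← card_pos]
    have : (0 : ℝ) < 𝒯.card := lt_of_lt_of_le (mul_pos hc hCn0) h𝒯c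
    exact_mod_cast this
  have htot : ∑ A ∈ 𝒯, (X1 A / N1.card + X2 A / N2.card + X3 A / top.card) ≤ ∑ _A ∈ 𝒯, η := by
    rw [sum_add_distrib, sum_add_distrib, ← sum_div, ← sum_div, ← sum_div, sum_const,
      nsmul_eq_mul]
    have e1 : (∑ A ∈ 𝒯, X1 A) / N1.card ≤ δ * Cn + q * Cn / N1.card := by
      rw [div_le_iff₀ hn1, add_mul, div_mul_cancel₀ _ hn1.ne']
      linarith
    have e2 : (∑ A ∈ 𝒯, X2 A) / N2.card ≤ 2 * (δ * Cn) + (q + q ^ 2) * Cn / N2.card := by
      rw [div_le_iff₀ hn2, add_mul, div_mul_cancel₀ _ hn2.ne']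
      linarith
    have e3 : (∑ A ∈ 𝒯, X3 A) / top.card ≤ δ * Cn := by
      rw [div_le_iff₀ hn3]
      linarith
    have e4 : (4 * δ + q / N1.card + (q + q ^ 2) / N2.card) * Cn ≤ 𝒯.card * η := by
      calc (4 * δ + q / N1.card + (q + q ^ 2) / N2.card) * Cn ≤ (η * c) * Cn :=
            mul_le_mul_of_nonneg_right hη' hCn0.le
        _ = η * (c * Cn) := by ring
        _ ≤ η * 𝒯.card := mul_le_mul_of_nonneg_left h𝒯c hη.le
        _ = 𝒯.card * η := mul_comm _ _
    have e5 : (4 * δ + q / N1.card + (q + q ^ 2) / N2.card) * Cn =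
        (δ * Cn + q * Cn / N1.card) + (2 * (δ * Cn) + (q + q ^ 2) * Cn / N2.card) + δ * Cn := by
      ring
    linarith
  obtain ⟨A, hA, hle⟩ := exists_le_of_sum_le hne htot
  have f1 : 0 ≤ X1 A / N1.card := div_nonneg (Nat.cast_nonneg _) hn1.le
  have f2 : 0 ≤ X2 A / N2.card := div_nonneg (Nat.cast_nonneg _) hn2.le
  have f3 : 0 ≤ X3 A / top.card := div_nonneg (Nat.cast_nonneg _) hn3.le
  refine ⟨A, hA, ?_, ?_, ?_⟩
  · exact (div_le_iff₀ hn1).1 (by linarith)
  · exact (div_le_iff₀ hn2).1 (by linarith)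
  · exact (div_le_iff₀ hn3).1 (by linarith)

end Count

end Pool.Agent.Helper94.ES
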